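import Pool.Agent.R572.AutoB

set_option autoImplicit false

/-!
# The fixed point of `1 → 12122121, 2 → 2` is not `k`-automatic, for any `k ≥ 2`

The ones of the word sit at the positions `p n = (7 n + e n) / 3`, where `e n` is the number of
digits `2` minus the number of digits `1` of `n` in base four.  If the `k`-kernel were finite, some
`m' < m` would have equal blocks `[k ^ e m, k ^ e (m + 1))` and `[k ^ e m', k ^ e (m' + 1))` for
all `e`.  Synchronization of the word turns this into a relation
`3 k ^ e (m - m') = 7 * 4 ^ j v + γ` with `v` and `γ` from a finite set, hence constant for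
infinitely many `e`; along the multiples `(m - m') w` the blocks then start at the offsets
`(γ w - e (v w)) / 3` of the word, which take infinitely many values, so that two equal blocks
would make the word ultimately periodic.
-/

namespace Pool.Agent.Results.MP_ad6ded_lc.NotAutomatic

/-- The finite words `x₁ = 12`, `x_{n+1} = x_n x_n x_n^R x_n^R 2`; `X n` is `x_{n+1}`. -/
def X : ℕ → List ℕ
  | 0 => [1, 2]
  | n + 1 => X n ++ X n ++ (X n).reverse ++ (X n).reverse ++ [2]

/-- The infinite word `a` has every `X n` as a prefix. -/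
def IsLimit (a : ℕ → ℕ) : Prop := ∀ (n i : ℕ) (h : i < (X n).length), a i = (X n)[i]

/-- The sequence `a` is `k`-automatic: its `k`-kernel is finite. -/
def IsAutomatic (k : ℕ) (a : ℕ → ℕ) : Prop :=
  {s : ℕ → ℕ | ∃ e j : ℕ, j < k ^ e ∧ s = fun n => a (k ^ e * n + j)}.Finite

open Pool.Agent.R572.Auto

open Classical in
/-- The letter at position `i`. -/
noncomputable def chi (i : ℕ) : ℕ := if One i then 1 else 2

theorem chi_congr {i j : ℕ} (h : One i ↔ One j) : chi i = chi j := by
  classical
  unfold chi
  by_cases h2 : One j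
  · rw [if_pos (h.2 h2), if_pos h2]
  · rw [if_neg (fun h3 => h2 (h.1 h3)), if_neg h2]

/-- The length of `X n`. -/
theorem three_len (n : ℕ) : 3 * p (4 ^ n) + 1 = 7 * 4 ^ n := by
  have h := three_p (4 ^ n)
  have h1 := E_mul n 1
  rw [mul_one, E_one] at h1
  rw [h1] at h
  push_cast at h
  have : (3 * p (4 ^ n) + 1 : ℤ) = 7 * 4 ^ n := by linarith
  exact_mod_cast this

theorem p_two (n : ℕ) : p (4 ^ n * 2) = 2 * p (4 ^ n) + 1 := by
  have h := three_p (4 ^ n * 2)
  rw [E_mul, E_two] at h
  have h2 := three_len n
  have h3 : (3 * p (4 ^ n) + 1 : ℤ) = 7 * 4 ^ n := by exact_mod_cast h2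
  push_cast at h
  have : (3 * p (4 ^ n * 2) : ℤ) = 3 * (2 * p (4 ^ n) + 1) := by linarith
  have h4 : 3 * p (4 ^ n * 2) = 3 * (2 * p (4 ^ n) + 1) := by exact_mod_cast this
  omega

theorem p_three (n : ℕ) : p (4 ^ n * 3) = 3 * p (4 ^ n) + 1 := by
  have h := three_p (4 ^ n * 3)
  rw [E_mul, E_three] at h
  have h2 := three_len n
  have h3 : (3 * p (4 ^ n) + 1 : ℤ) = 7 * 4 ^ n := by exact_mod_cast h2
  push_cast at h
  have : (3 * p (4 ^ n * 3) : ℤ) = 3 * (3 * p (4 ^ n) + 1) := by linarith
  have h4 : 3 * p (4 ^ n * 3) = 3 * (3 * p (4 ^ n) + 1) := by exact_mod_cast this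
  omega

theorem p_four (n : ℕ) : p (4 ^ (n + 1)) = 4 * p (4 ^ n) + 1 := by
  have h1 := three_len n
  have h2 := three_len (n + 1)
  rw [pow_succ] at h2 ⊢
  omega

theorem p_refl (n b : ℕ) (hb : b < 4 ^ n) : p (4 ^ n - 1 - b) + p b + 2 = p (4 ^ n) := by
  have h1 := three_p (4 ^ n - 1 - b)
  rw [E_compl n b hb] at h1
  have h2 := three_p b
  have h3 : (3 * p (4 ^ n) + 1 : ℤ) = 7 * 4 ^ n := by exact_mod_cast three_len n
  have h4 : ((4 ^ n - 1 - b : ℕ) : ℤ) = 4 ^ n - 1 - b := by
    have h5 : 4 ^ n = (4 ^ n - 1 - b) + 1 + b := by omega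
    have h6 : ((4 ^ n : ℕ) : ℤ) = ((4 ^ n - 1 - b : ℕ) : ℤ) + 1 + b := by exact_mod_cast h5
    push_cast at h6
    linarith
  rw [h4] at h1
  have h5 : (3 * (p (4 ^ n - 1 - b) + p b + 2) : ℤ) = 3 * p (4 ^ n) := by linarith
  have h6 : 3 * (p (4 ^ n - 1 - b) + p b + 2) = 3 * p (4 ^ n) := by exact_mod_cast h5
  omega

theorem p_last (n : ℕ) : p (4 ^ n - 1) + 2 = p (4 ^ n) := by
  have := p_refl n 0 (by positivity)
  rwa [p_zero, Nat.sub_zero, add_zero] at this

theorem one_add (n s : ℕ) (hs : s < p (4 ^ n)) : One (p (4 ^ n) + s) ↔ One s := by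
  have := one_copy n 1 s hs
  rwa [mul_one] at this

/-- The third and the fourth block: the common part. -/
theorem one_refl (n s c : ℕ) (hs : s < p (4 ^ n)) (hc : c = 2 ∨ c = 3) :
    One (c * p (4 ^ n) + s) ↔ One (p (4 ^ n) - 1 - s) := by
  have hpos : 0 < 4 ^ n := by positivity
  have hcp : p (4 ^ n * c) = c * p (4 ^ n) + 1 := by
    rcases hc with rfl | rfl
    · exact p_two n
    · exact p_three n
  have hlow : p (4 ^ n * c - 1) < c * p (4 ^ n) := by
    have h1 : 4 ^ n * c - 1 = 4 ^ n * (c - 1) + (4 ^ n - 1) := by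
      rcases hc with rfl | rfl <;> omega
    rw [h1, p_add n _ _ (by omega)]
    have h2 := p_last n
    rcases hc with rfl | rfl
    · simp only [Nat.reduceSub, mul_one]
      omega
    · simp only [Nat.reduceSub]
      rw [p_two n]
      omega
  have hhigh : c * p (4 ^ n) + s < p (4 ^ n * (c + 1)) := by
    rcases hc with rfl | rfl
    · rw [p_three n]; omega
    · have := p_four n
      rw [pow_succ] at this
      rw [this]; omega
  constructor
  · rintro ⟨m, hm⟩
    have h1 : 4 ^ n * c ≤ m := by
      by_contra hcon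
      have := p_strictMono.monotone (show m ≤ 4 ^ n * c - 1 by omega)
      omega
    have h2 : m < 4 ^ n * (c + 1) := by
      by_contra hcon
      have := p_strictMono.monotone (not_lt.1 hcon)
      omega
    obtain ⟨b, rfl⟩ := Nat.exists_eq_add_of_le h1
    have hb : b < 4 ^ n := by rw [mul_add] at h2; omega
    rw [p_add n c b hb, hcp] at hm
    have h3 := p_refl n b hb
    exact ⟨4 ^ n - 1 - b, by omega⟩
  · rintro ⟨b, hb⟩
    have hbn : b < 4 ^ n := by
      by_contra hcon
      have := p_strictMono.monotone (not_lt.1 hcon)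
      omega
    have h3 := p_refl n b hbn
    refine ⟨4 ^ n * c + (4 ^ n - 1 - b), ?_⟩
    rw [p_add n c _ (by omega), hcp]
    omega

theorem not_one_last (n : ℕ) : ¬ One (4 * p (4 ^ n)) := by
  rintro ⟨m, hm⟩
  have hpos : 0 < 4 ^ n := by positivity
  have h4 := p_four n
  have h1 : m < 4 ^ (n + 1) := by
    by_contra hcon
    have := p_strictMono.monotone (not_lt.1 hcon)
    omega
  have h2 := p_strictMono.monotone (show m ≤ 4 ^ n * 3 + (4 ^ n - 1) by rw [pow_succ] at h1; omega)
  have h3 := p_last n
  rw [p_add n 3 _ (by omega), p_three] at h2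
  omega

theorem X_eq (n : ℕ) : X n = (List.range (p (4 ^ n))).map chi := by
  induction n with
  | zero =>
    have h2 : p (4 ^ 0) = 2 := by
      have := three_len 0
      simp at this ⊢
      omega
    have h0 : One 0 := ⟨0, p_zero⟩
    have h1 : ¬ One 1 := by
      rintro ⟨m, hm⟩
      rcases m with _ | m
      · rw [p_zero] at hm; omega
      · have := p_strictMono.monotone (show 1 ≤ m + 1 by omega)
        simp only [pow_zero] at h2
        omega
    rw [h2]
    simp [X, List.range_succ, chi, h0, h1]
  | succ n ih =>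
    set l := p (4 ^ n) with hl
    have hrev : (X n).reverse = (List.range l).map (fun s => chi (l - 1 - s)) := by
      rw [ih, ← List.map_reverse]
      apply List.ext_getElem
      · simp
      · intro i h1 h2
        simp only [List.length_map, List.length_range, List.length_reverse] at h1 h2
        simp [List.getElem_reverse]
    have hr : List.range (4 * l + 1) = List.range l ++ (List.range l).map (fun s => l + s) ++
        (List.range l).map (fun s => 2 * l + s) ++ (List.range l).map (fun s => 3 * l + s) ++
        [4 * l] := by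
      rw [List.range_succ]
      have e1 : List.range (4 * l) = List.range (3 * l) ++ (List.range l).map (fun s => 3 * l + s) := by
        rw [show 4 * l = 3 * l + l by ring, List.range_add]
      have e2 : List.range (3 * l) = List.range (2 * l) ++ (List.range l).map (fun s => 2 * l + s) := by
        rw [show 3 * l = 2 * l + l by ring, List.range_add]
      have e3 : List.range (2 * l) = List.range l ++ (List.range l).map (fun s => l + s) := by
        rw [show 2 * l = l + l by ring, List.range_add]
      rw [e1, e2, e3]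
    rw [p_four, ← hl, hr, X, hrev, ih]
    simp only [List.map_append, List.map_map, List.map_cons, List.map_nil]
    have m1 : (List.range l).map (chi ∘ fun s => l + s) = (List.range l).map chi := by
      apply List.map_congr_left
      intro s hs
      exact chi_congr (one_add n s (List.mem_range.1 hs))
    have m2 : (List.range l).map (chi ∘ fun s => 2 * l + s) =
        (List.range l).map (fun s => chi (l - 1 - s)) := by
      apply List.map_congr_left
      intro s hs
      exact chi_congr (one_refl n s 2 (List.mem_range.1 hs) (Or.inl rfl))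
    have m3 : (List.range l).map (chi ∘ fun s => 3 * l + s) =
        (List.range l).map (fun s => chi (l - 1 - s)) := by
      apply List.map_congr_left
      intro s hs
      exact chi_congr (one_refl n s 3 (List.mem_range.1 hs) (Or.inr rfl))
    have m4 : chi (4 * l) = 2 := by
      unfold chi
      rw [if_neg (not_one_last n)]
    rw [m1, m2, m3, m4]

/-- The infinite word exists. -/
theorem exists_limit : ∃ a, IsLimit a := by
  refine ⟨chi, fun n i h => ?_⟩
  have h1 := X_eq n
  simp only [h1]
  simp

theorem eq_chi {a : ℕ → ℕ} (ha : IsLimit a) (i : ℕ) : a i = chi i := by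
  have h1 : i < (X i).length := by
    rw [X_eq, List.length_map, List.length_range]
    exact lt_of_lt_of_le (Nat.lt_pow_self (by norm_num)) p_strictMono.le_apply
  rw [ha i i h1]
  simp only [X_eq i]
  simp

/-- The infinite word having every `X n` as a prefix is not `k`-automatic, for any `k ≥ 2`. -/
theorem result (a : ℕ → ℕ) (ha : IsLimit a) (k : ℕ) (hk : 2 ≤ k) : ¬ IsAutomatic k a := by
  classical
  intro hfin
  have hF : Finite {s : ℕ → ℕ | ∃ e j : ℕ, j < k ^ e ∧ s = fun n => a (k ^ e * n + j)} :=
    hfin.to_subtype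
  refine main (κ := {s : ℕ → ℕ | ∃ e j : ℕ, j < k ^ e ∧ s = fun n => a (k ^ e * n + j)} → Bool)
    k hk (fun m s => decide (s.1 m = 1)) (fun m m' hmm e i hi => ?_)
  have h1 := congrFun hmm ⟨fun n => a (k ^ e * n + i), e, i, hi, rfl⟩
  simp only [decide_eq_decide] at h1
  rw [eq_chi ha, eq_chi ha] at h1
  unfold chi at h1
  by_cases h2 : One (k ^ e * m + i) <;> by_cases h3 : One (k ^ e * m' + i) <;>
    simp [h2, h3] at h1 ⊢

end Pool.Agent.Results.MP_ad6ded_lc.NotAutomatic
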